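import Pool.Agent.R193.Coc.Types

/-!
# A non-elementary piecewise constant cocycle of parabolic type

The interval exchange is the rotation of `[0, 1)` by `α = √2 - 1`, cut at `1 - 2α`, `1 - α` and
`2 - 3α`.  With the function `B` equal to `1`, `L`, `U` on `[0, 1 - 2α)`, `[1 - 2α, 1 - α)`,
`[1 - α, 1)`, the cocycle is `B (T x)⁻¹ * U * B x`.
-/

set_option autoImplicit false

namespace Pool.Agent.Results.MP_a48a54_an.Parabolic

open Set MeasureTheory Pool.Agent.R193.Coc

/-- There are an ergodic interval exchange transformation and a piecewise constant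
`SL₂(ℝ)`-cocycle over it whose values generate a Zariski dense subgroup, which is of parabolic type
(and not of elliptic type). -/
theorem result : ∃ (d : ℕ) (I : IET d) (M : Fin d → G) (ρ : ℝ → G), Ergodic I.map mu ∧
    IsPC I M ρ ∧ ZariskiDense (Subgroup.closure (range M)) ∧ ParabolicType I.map ρ ∧
    ¬ EllipticType I.map ρ :=
  ⟨4, ex, Mv (Um 1) (Lm 1) (Um 1), rh (Um 1) (Lm 1) (Um 1), erg, rh_pc _ _ _, Mv_dense _,
    parabolic_U, not_elliptic_U⟩

end Pool.Agent.Results.MP_a48a54_an.Parabolic
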